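import Mathlib

/-!
# Bounded and unbounded searches as computable functions
-/

set_option autoImplicit false
set_option linter.unusedSectionVars false

namespace Pool.Agent.Q49.EF

variable {α : Type} [Primcodable α]

/-- the number of `x < N` with `p (a, x)` -/
def cnt (p : α × ℕ → Bool) (a : α) (N : ℕ) : ℕ :=
  Nat.rec 0 (fun x ih => cond (p (a, x)) (ih + 1) ih) N

/-- whether there is `x < N` with `p (a, x)` -/
def ex (p : α × ℕ → Bool) (a : α) (N : ℕ) : Bool :=
  Nat.rec false (fun x ih => cond (p (a, x)) true ih) N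

/-- the list of all `x < N` with `p (a, x)` -/
def lst (p : α × ℕ → Bool) (a : α) (N : ℕ) : List ℕ :=
  Nat.rec [] (fun x ih => cond (p (a, x)) (x :: ih) ih) N

/-- the maximum of `u (a, x)` for `x < N` -/
def mx (u : α × ℕ → ℕ) (a : α) (N : ℕ) : ℕ :=
  Nat.rec 0 (fun x ih => max ih (u (a, x))) N

lemma pair_computable : Computable fun z : (α × ℕ) × (ℕ × ℕ) => (z.1.1, z.2.1) :=
  Computable.pair (Computable.fst.comp Computable.fst) (Computable.fst.comp Computable.snd)

lemma pair_computable' {β : Type} [Primcodable β] :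
    Computable fun z : (α × ℕ) × (ℕ × β) => (z.1.1, z.2.1) :=
  Computable.pair (Computable.fst.comp Computable.fst) (Computable.fst.comp Computable.snd)

lemma ih_computable {β : Type} [Primcodable β] :
    Computable fun z : (α × ℕ) × (ℕ × β) => z.2.2 :=
  Computable.snd.comp Computable.snd

lemma cnt_computable {p : α × ℕ → Bool} (hp : Computable p) :
    Computable fun y : α × ℕ => cnt p y.1 y.2 := by
  have h : Computable₂ fun (y : α × ℕ) (z : ℕ × ℕ) => cond (p (y.1, z.1)) (z.2 + 1) z.2 :=
    Computable.cond (hp.comp pair_computable') (Computable.succ.comp ih_computable) ih_computable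
  exact Computable.nat_rec Computable.snd (Computable.const 0) h

lemma ex_computable {p : α × ℕ → Bool} (hp : Computable p) :
    Computable fun y : α × ℕ => ex p y.1 y.2 := by
  have h : Computable₂ fun (y : α × ℕ) (z : ℕ × Bool) => cond (p (y.1, z.1)) true z.2 :=
    Computable.cond (hp.comp pair_computable') (Computable.const true) ih_computable
  exact Computable.nat_rec Computable.snd (Computable.const false) h

lemma lst_computable {p : α × ℕ → Bool} (hp : Computable p) :
    Computable fun y : α × ℕ => lst p y.1 y.2 := by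
  have h : Computable₂ fun (y : α × ℕ) (z : ℕ × List ℕ) => cond (p (y.1, z.1)) (z.1 :: z.2) z.2 :=
    Computable.cond (hp.comp pair_computable')
      (Computable.list_cons.comp (Computable.fst.comp Computable.snd) ih_computable) ih_computable
  exact Computable.nat_rec Computable.snd (Computable.const []) h

lemma mx_computable {u : α × ℕ → ℕ} (hu : Computable u) :
    Computable fun y : α × ℕ => mx u y.1 y.2 := by
  have h : Computable₂ fun (y : α × ℕ) (z : ℕ × ℕ) => max z.2 (u (y.1, z.1)) :=
    (Primrec.nat_max.to_comp).comp ih_computable (hu.comp pair_computable')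
  exact Computable.nat_rec Computable.snd (Computable.const 0) h

lemma cnt_eq (p : α × ℕ → Bool) (a : α) (N : ℕ) :
    cnt p a N = ((Finset.range N).filter fun x => p (a, x) = true).card := by
  induction N with
  | zero => rfl
  | succ N ih =>
    change cond (p (a, N)) (cnt p a N + 1) (cnt p a N) = _
    rw [Finset.range_add_one, Finset.filter_insert]
    cases h : p (a, N) with
    | false => simpa using ih
    | true => simp [ih]

lemma ex_iff (p : α × ℕ → Bool) (a : α) (N : ℕ) : ex p a N = true ↔ ∃ x < N, p (a, x) = true := by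
  induction N with
  | zero => simp [ex]
  | succ N ih =>
    change cond (p (a, N)) true (ex p a N) = true ↔ _
    cases h : p (a, N) with
    | false =>
      rw [cond_false, ih]
      constructor
      · rintro ⟨x, h1, h2⟩
        exact ⟨x, by omega, h2⟩
      · rintro ⟨x, h1, h2⟩
        refine ⟨x, ?_, h2⟩
        rcases Nat.lt_succ_iff_lt_or_eq.mp h1 with h3 | rfl
        · exact h3
        · rw [h] at h2; exact absurd h2 (by simp)
    | true => exact ⟨fun _ => ⟨N, by omega, h⟩, fun _ => rfl⟩

lemma mem_lst (p : α × ℕ → Bool) (a : α) (N x : ℕ) :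
    x ∈ lst p a N ↔ x < N ∧ p (a, x) = true := by
  induction N with
  | zero => simp [lst]
  | succ N ih =>
    change x ∈ cond (p (a, N)) (N :: lst p a N) (lst p a N) ↔ _
    cases h : p (a, N) with
    | false =>
      rw [cond_false, ih]
      constructor
      · rintro ⟨h1, h2⟩
        exact ⟨by omega, h2⟩
      · rintro ⟨h1, h2⟩
        refine ⟨?_, h2⟩
        rcases Nat.lt_succ_iff_lt_or_eq.mp h1 with h3 | rfl
        · exact h3
        · rw [h] at h2; exact absurd h2 (by simp)
    | true =>
      rw [cond_true, List.mem_cons, ih]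
      constructor
      · rintro (rfl | ⟨h1, h2⟩)
        · exact ⟨by omega, h⟩
        · exact ⟨by omega, h2⟩
      · rintro ⟨h1, h2⟩
        rcases Nat.lt_succ_iff_lt_or_eq.mp h1 with h3 | rfl
        · exact Or.inr ⟨h3, h2⟩
        · exact Or.inl rfl

lemma le_mx (u : α × ℕ → ℕ) (a : α) {N x : ℕ} (h : x < N) : u (a, x) ≤ mx u a N := by
  induction N with
  | zero => omega
  | succ N ih =>
    change u (a, x) ≤ max (mx u a N) (u (a, N))
    rcases Nat.lt_succ_iff_lt_or_eq.mp h with h1 | rfl
    · exact (ih h1).trans (le_max_left _ _)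
    · exact le_max_right _ _

lemma cnt_comp {p : α × ℕ → Bool} (hp : Computable p) {B : α → ℕ} (hB : Computable B) :
    Computable fun a => cnt p a (B a) :=
  (cnt_computable hp).comp (Computable.pair Computable.id hB)

lemma ex_comp {p : α × ℕ → Bool} (hp : Computable p) {B : α → ℕ} (hB : Computable B) :
    Computable fun a => ex p a (B a) :=
  (ex_computable hp).comp (Computable.pair Computable.id hB)

lemma lst_comp {p : α × ℕ → Bool} (hp : Computable p) {B : α → ℕ} (hB : Computable B) :
    Computable fun a => lst p a (B a) :=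
  (lst_computable hp).comp (Computable.pair Computable.id hB)

lemma mx_comp {u : α × ℕ → ℕ} (hu : Computable u) {B : α → ℕ} (hB : Computable B) :
    Computable fun a => mx u a (B a) :=
  (mx_computable hu).comp (Computable.pair Computable.id hB)

/-- unbounded search -/
theorem search {p : α × ℕ → Bool} (hp : Computable p) (h : ∀ a, ∃ x, p (a, x) = true) :
    ∃ f : α → ℕ, Computable f ∧ ∀ a, p (a, f a) = true := by
  classical
  refine ⟨fun a => Nat.find (h a), ?_, fun a => Nat.find_spec (h a)⟩
  refine Computable.find (P := fun a x => p (a, x) = true) ?_ h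
  exact ComputablePred.computable_iff.mpr ⟨p, hp, rfl⟩

/-- the maximal entry of a list -/
theorem list_bound {f : α → List ℕ} (hf : Computable f) :
    ∃ B : α → ℕ, Computable B ∧ ∀ a, ∀ x ∈ f a, x < B a := by
  have h1 : Computable fun z : α × ℕ => ((f z.1)[z.2]?).getD 0 :=
    Computable.option_getD
      (Computable.list_getElem?.comp (hf.comp Computable.fst) Computable.snd) (Computable.const 0)
  refine ⟨fun a => mx (fun z : α × ℕ => ((f z.1)[z.2]?).getD 0) a (f a).length + 1, ?_, ?_⟩
  · exact Computable.succ.comp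
      ((mx_computable h1).comp (Computable.pair Computable.id (Computable.list_length.comp hf)))
  · intro a x hx
    obtain ⟨i, hi, rfl⟩ := List.mem_iff_getElem.mp hx
    have := le_mx (fun z : α × ℕ => ((f z.1)[z.2]?).getD 0) a hi
    simp only [List.getElem?_eq_getElem hi, Option.getD_some] at this
    exact Nat.lt_succ_of_le this

/-- If a decidable family of finite sets has computable cardinalities, then it has computable bounds. -/
theorem bound_of_card {p : α × ℕ → Bool} (hp : Computable p)
    (hfin : ∀ a, {x | p (a, x) = true}.Finite) {n : α → ℕ} (hn : Computable n)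
    (h : ∀ a, {x | p (a, x) = true}.ncard = n a) :
    ∃ B : α → ℕ, Computable B ∧ ∀ a x, p (a, x) = true → x < B a := by
  have h1 : Computable fun z : α × ℕ => (cnt p z.1 z.2 == n z.1) :=
    Primrec.beq.to_comp.comp (cnt_computable hp) (hn.comp Computable.fst)
  obtain ⟨B, h2, h3⟩ := search h1 fun a => by
    obtain ⟨N, hN⟩ := (hfin a).bddAbove
    refine ⟨N + 1, ?_⟩
    rw [beq_iff_eq]
    change cnt p a (N + 1) = n a
    rw [cnt_eq, ← h a, ← Set.ncard_coe_finset]
    congr 1
    ext x
    simp only [Finset.coe_filter, Finset.mem_range, Set.mem_ofPred_eq]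
    exact ⟨fun h4 => h4.2, fun h4 => ⟨Nat.lt_succ_of_le (hN h4), h4⟩⟩
  refine ⟨B, h2, fun a x hx => ?_⟩
  have h4 : cnt p a (B a) = n a := by simpa using h3 a
  rw [cnt_eq, ← h a, ← Set.ncard_coe_finset] at h4
  have h5 : (((Finset.range (B a)).filter fun x => p (a, x) = true : Finset ℕ) : Set ℕ)
      = {x | p (a, x) = true} := by
    refine Set.eq_of_subset_of_ncard_le ?_ h4.ge (hfin a)
    intro y hy
    simp only [Finset.coe_filter, Finset.mem_range, Set.mem_ofPred_eq] at hy ⊢
    exact hy.2
  have h6 : x ∈ (((Finset.range (B a)).filter fun x => p (a, x) = true : Finset ℕ) : Set ℕ) := by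
    rw [h5]; exact hx
  simp only [Finset.coe_filter, Finset.mem_range, Set.mem_ofPred_eq] at h6
  exact h6.1

/-- Conversely. -/
theorem card_of_bound {p : α × ℕ → Bool} (hp : Computable p) {B : α → ℕ} (hB : Computable B)
    (h : ∀ a x, p (a, x) = true → x < B a) :
    ∃ n : α → ℕ, Computable n ∧ ∀ a, {x | p (a, x) = true}.ncard = n a := by
  refine ⟨fun a => cnt p a (B a), (cnt_computable hp).comp (Computable.pair Computable.id hB), ?_⟩
  intro a
  change _ = cnt p a (B a)
  rw [cnt_eq, ← Set.ncard_coe_finset]
  congr 1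
  ext x
  simp only [Finset.coe_filter, Finset.mem_range, Set.mem_ofPred_eq]
  exact ⟨fun h4 => ⟨h a x h4, h4⟩, fun h4 => h4.2⟩

theorem list_of_bound {p : α × ℕ → Bool} (hp : Computable p) {B : α → ℕ} (hB : Computable B)
    (h : ∀ a x, p (a, x) = true → x < B a) :
    ∃ f : α → List ℕ, Computable f ∧ ∀ a x, x ∈ f a ↔ p (a, x) = true := by
  refine ⟨fun a => lst p a (B a), (lst_computable hp).comp (Computable.pair Computable.id hB), ?_⟩
  intro a x
  rw [mem_lst]
  exact ⟨fun h4 => h4.2, fun h4 => ⟨h a x h4, h4⟩⟩

/-- `x` is the first element of `p` with the value `q (a, x)` -/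
def fst (p : α × ℕ → Bool) (q : α × ℕ → ℕ) (z : α × ℕ) : Bool :=
  p z && !(ex (fun w : (α × ℕ) × ℕ => p (w.1.1, w.2) && (q (w.1.1, w.2) == q w.1)) z z.2)

lemma fst_computable {p : α × ℕ → Bool} (hp : Computable p) {q : α × ℕ → ℕ} (hq : Computable q) :
    Computable (fst p q) := by
  have a1 : Computable fun w : (α × ℕ) × ℕ => (w.1.1, w.2) :=
    Computable.pair (Computable.fst.comp Computable.fst) Computable.snd
  have a2 : Computable fun w : (α × ℕ) × ℕ => p (w.1.1, w.2) && (q (w.1.1, w.2) == q w.1) :=
    Primrec.and.to_comp.comp (hp.comp a1)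
      (Primrec.beq.to_comp.comp (hq.comp a1) (hq.comp Computable.fst))
  exact Primrec.and.to_comp.comp hp (Primrec.not.to_comp.comp
    ((ex_computable a2).comp (Computable.pair Computable.id Computable.snd)))

lemma fst_iff (p : α × ℕ → Bool) (q : α × ℕ → ℕ) (a : α) (x : ℕ) :
    fst p q (a, x) = true ↔ p (a, x) = true ∧ ∀ y < x, p (a, y) = true → q (a, y) ≠ q (a, x) := by
  unfold fst
  rw [Bool.and_eq_true, Bool.not_eq_true', ← Bool.not_eq_true, ex_iff]
  simp only [Bool.and_eq_true, beq_iff_eq, not_exists, not_and]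

/-- each value is taken at a first element -/
lemma exists_fst (p : α × ℕ → Bool) (q : α × ℕ → ℕ) (a : α) (x : ℕ) (hx : p (a, x) = true) :
    ∃ y ≤ x, fst p q (a, y) = true ∧ q (a, y) = q (a, x) := by
  classical
  have h : ∃ y, p (a, y) = true ∧ q (a, y) = q (a, x) := ⟨x, hx, rfl⟩
  refine ⟨Nat.find h, Nat.find_min' h ⟨hx, rfl⟩, ?_, (Nat.find_spec h).2⟩
  rw [fst_iff]
  refine ⟨(Nat.find_spec h).1, fun y hy h1 h2 => ?_⟩
  exact Nat.find_min h hy ⟨h1, h2.trans (Nat.find_spec h).2⟩

lemma fst_inj (p : α × ℕ → Bool) (q : α × ℕ → ℕ) (a : α) {x y : ℕ} (hx : fst p q (a, x) = true)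
    (hy : fst p q (a, y) = true) (h : q (a, x) = q (a, y)) : x = y := by
  rw [fst_iff] at hx hy
  rcases lt_trichotomy x y with h1 | h1 | h1
  · exact absurd h (hy.2 x h1 hx.1)
  · exact h1
  · exact absurd h.symm (hx.2 y h1 hy.1)

attribute [irreducible] cnt ex lst mx

end Pool.Agent.Q49.EF
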