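import Pool.Agent.Q49.EF.Basic

/-!
# Decidable families of finite sets: the values of an invariant
-/

set_option autoImplicit false
set_option linter.unusedSectionVars false

namespace Pool.Agent.Q49.EF

variable {α : Type} [Primcodable α]

/-- Let `p (a, ·)` be a decidable family of finite sets and `q` a computable invariant with computable
bounds. For a decidable set of parameters, the following are equivalent: one can compute bounds for one
element with each value of the invariant; the number of values is computable; it is decidable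
which values occur. -/
theorem values_tfae {p : α × ℕ → Bool} (hp : Computable p) (hfin : ∀ a, {x | p (a, x) = true}.Finite)
    {q : α × ℕ → ℕ} (hq : Computable q) {w : α → ℕ} (hw : Computable w)
    (hqw : ∀ a x, p (a, x) = true → q (a, x) < w a) {dom : α → Bool} (hdom : Computable dom) :
    List.TFAE [
      ∃ B : α → ℕ, Computable B ∧ ∀ a x, dom a = true → p (a, x) = true →
        ∃ y < B a, p (a, y) = true ∧ q (a, y) = q (a, x),
      ∃ n : α → ℕ, Computable n ∧ ∀ a, dom a = true →
        {v | ∃ x, p (a, x) = true ∧ q (a, x) = v}.ncard = n a,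
      ComputablePred fun z : α × ℕ => dom z.1 = true ∧ ∃ x, p (z.1, x) = true ∧ q (z.1, x) = z.2] := by
  classical
  have hf := fst_computable hp hq
  -- restrict to the set of parameters
  have hg : Computable fun z : α × ℕ => dom z.1 && fst p q z :=
    Primrec.and.to_comp.comp (hdom.comp Computable.fst) hf
  have hgfin : ∀ a, {x | (dom a && fst p q (a, x)) = true}.Finite := fun a =>
    (hfin a).subset fun x hx => by
      have h1 : (dom a && fst p q (a, x)) = true := hx
      rw [Bool.and_eq_true] at h1
      exact ((fst_iff p q a x).mp h1.2).1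
  have hcard : ∀ a, dom a = true → {v | ∃ x, p (a, x) = true ∧ q (a, x) = v}.ncard =
      {x | (dom a && fst p q (a, x)) = true}.ncard := by
    intro a ha
    have h1 : {v | ∃ x, p (a, x) = true ∧ q (a, x) = v} =
        (fun x => q (a, x)) '' {x | (dom a && fst p q (a, x)) = true} := by
      ext v
      constructor
      · rintro ⟨x, h1, rfl⟩
        obtain ⟨y, -, h2, h3⟩ := exists_fst p q a x h1
        refine ⟨y, ?_, h3⟩
        change (dom a && fst p q (a, y)) = true
        rw [ha, h2]; rfl
      · rintro ⟨x, h1, rfl⟩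
        have h2 : (dom a && fst p q (a, x)) = true := h1
        rw [Bool.and_eq_true] at h2
        exact ⟨x, ((fst_iff p q a x).mp h2.2).1, rfl⟩
    rw [h1]
    refine Set.InjOn.ncard_image ?_
    intro x hx y hy hxy
    have h2 : (dom a && fst p q (a, x)) = true := hx
    have h3 : (dom a && fst p q (a, y)) = true := hy
    rw [Bool.and_eq_true] at h2 h3
    exact fst_inj p q a h2.2 h3.2 hxy
  have hr : Computable fun z : (α × ℕ) × ℕ => p (z.1.1, z.2) && (q (z.1.1, z.2) == z.1.2) := by
    have a1 : Computable fun z : (α × ℕ) × ℕ => (z.1.1, z.2) :=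
      Computable.pair (Computable.fst.comp Computable.fst) Computable.snd
    exact Primrec.and.to_comp.comp (hp.comp a1)
      (Primrec.beq.to_comp.comp (hq.comp a1) (Computable.snd.comp Computable.fst))
  tfae_have 1 → 2 := by
    rintro ⟨B, h1, h2⟩
    obtain ⟨n, h3, h4⟩ := card_of_bound hg h1 (by
      intro a x hx
      rw [Bool.and_eq_true] at hx
      obtain ⟨y, h3, h4, h5⟩ := h2 a x hx.1 ((fst_iff p q a x).mp hx.2).1
      obtain ⟨z, h6, h7, h8⟩ := exists_fst p q a y h4
      obtain rfl := fst_inj p q a h7 hx.2 (h8.trans h5)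
      omega)
    exact ⟨n, h3, fun a ha => (hcard a ha).trans (h4 a)⟩
  tfae_have 2 → 1 := by
    rintro ⟨n, h1, h2⟩
    have h3 : Computable fun a => cond (dom a) (n a) 0 :=
      Computable.cond hdom h1 (Computable.const 0)
    obtain ⟨B, h4, h5⟩ := bound_of_card hg hgfin h3 (by
      intro a
      cases ha : dom a with
      | true =>
        rw [cond_true]
        exact (hcard a ha).symm.trans (h2 a ha)
      | false => simp [ha])
    refine ⟨B, h4, fun a x ha hx => ?_⟩
    obtain ⟨y, -, h6, h7⟩ := exists_fst p q a x hx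
    exact ⟨y, h5 a y (by rw [ha, h6]; rfl), ((fst_iff p q a y).mp h6).1, h7⟩
  tfae_have 1 → 3 := by
    rintro ⟨B, h1, h2⟩
    refine ComputablePred.computable_iff.mpr ⟨fun z => dom z.1 &&
      ex (fun z : (α × ℕ) × ℕ => p (z.1.1, z.2) && (q (z.1.1, z.2) == z.1.2)) z (B z.1),
      Primrec.and.to_comp.comp (hdom.comp Computable.fst)
        (ex_comp hr (h1.comp Computable.fst)), ?_⟩
    funext z
    obtain ⟨a, v⟩ := z
    refine propext ?_
    rw [Bool.and_eq_true, ex_iff]
    refine and_congr_right fun ha => ?_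
    constructor
    · rintro ⟨x, h3, h4⟩
      obtain ⟨y, h5, h6, h7⟩ := h2 a x ha h3
      refine ⟨y, h5, ?_⟩
      rw [Bool.and_eq_true, beq_iff_eq]
      exact ⟨h6, h7.trans h4⟩
    · rintro ⟨x, -, hx⟩
      rw [Bool.and_eq_true, beq_iff_eq] at hx
      exact ⟨x, hx.1, hx.2⟩
  tfae_have 3 → 1 := by
    intro h
    obtain ⟨d, h1, h2⟩ := ComputablePred.computable_iff.mp h
    have h3 : ∀ a v, d (a, v) = true ↔ dom a = true ∧ ∃ x, p (a, x) = true ∧ q (a, x) = v :=
      fun a v => (iff_of_eq (congrFun h2 (a, v))).symm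
    have h4 : Computable fun z : (α × ℕ) × ℕ =>
        !(d z.1) || (p (z.1.1, z.2) && (q (z.1.1, z.2) == z.1.2)) :=
      Primrec.or.to_comp.comp (Primrec.not.to_comp.comp (h1.comp Computable.fst)) hr
    obtain ⟨f, h5, h6⟩ := search h4 fun z => by
      obtain ⟨a, v⟩ := z
      by_cases hd : d (a, v) = true
      · obtain ⟨-, x, h7, h8⟩ := (h3 a v).mp hd
        exact ⟨x, by simp [h7, h8]⟩
      · simp only [Bool.not_eq_true] at hd
        exact ⟨0, by simp [hd]⟩
    refine ⟨fun a => mx f a (w a) + 1, Computable.succ.comp (mx_comp h5 hw), fun a x ha hx => ?_⟩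
    have h7 : d (a, q (a, x)) = true := (h3 a _).mpr ⟨ha, x, hx, rfl⟩
    have h8 := h6 (a, q (a, x))
    simp only [h7, Bool.not_true, Bool.false_or, Bool.and_eq_true, beq_iff_eq] at h8
    exact ⟨f (a, q (a, x)), Nat.lt_succ_of_le (le_mx f a (hqw a x hx)), h8.1, h8.2⟩
  tfae_finish

/-- The case in which the invariant is the element itself. -/
theorem bound_iff_card {p : α × ℕ → Bool} (hp : Computable p)
    (hfin : ∀ a, {x | p (a, x) = true}.Finite) {dom : α → Bool} (hdom : Computable dom) :
    (∃ B : α → ℕ, Computable B ∧ ∀ a x, dom a = true → p (a, x) = true → x < B a) ↔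
      ∃ n : α → ℕ, Computable n ∧ ∀ a, dom a = true → {x | p (a, x) = true}.ncard = n a := by
  have hg : Computable fun z : α × ℕ => dom z.1 && p z :=
    Primrec.and.to_comp.comp (hdom.comp Computable.fst) hp
  have hgfin : ∀ a, {x | (dom a && p (a, x)) = true}.Finite := fun a =>
    (hfin a).subset fun x hx => by
      have h1 : (dom a && p (a, x)) = true := hx
      rw [Bool.and_eq_true] at h1
      exact h1.2
  have hset : ∀ a, dom a = true → {x | (dom a && p (a, x)) = true} = {x | p (a, x) = true} := by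
    intro a ha
    ext x
    change (dom a && p (a, x)) = true ↔ p (a, x) = true
    rw [ha]; simp
  constructor
  · rintro ⟨B, h1, h2⟩
    obtain ⟨n, h3, h4⟩ := card_of_bound hg h1 fun a x hx => by
      rw [Bool.and_eq_true] at hx
      exact h2 a x hx.1 hx.2
    exact ⟨n, h3, fun a ha => by rw [← hset a ha]; exact h4 a⟩
  · rintro ⟨n, h1, h2⟩
    have h3 : Computable fun a => cond (dom a) (n a) 0 :=
      Computable.cond hdom h1 (Computable.const 0)
    obtain ⟨B, h4, h5⟩ := bound_of_card hg hgfin h3 (by
      intro a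
      cases ha : dom a with
      | true =>
        rw [cond_true]
        exact (congrArg Set.ncard (hset a ha)).trans (h2 a ha)
      | false => simp [ha])
    exact ⟨B, h4, fun a x ha hx => h5 a x (by rw [ha, hx]; rfl)⟩

/-- The classes of an equivalence relation given by the equality of an invariant. -/
theorem ncard_classes {P : ℕ → Prop} {R : ℕ → ℕ → Prop} {q : ℕ → ℕ}
    (h : ∀ x y, P x → P y → (q x = q y ↔ R x y)) :
    {S : Set ℕ | ∃ x, P x ∧ S = {y | P y ∧ R x y}}.ncard = {v | ∃ x, P x ∧ q x = v}.ncard := by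
  have h1 : {S : Set ℕ | ∃ x, P x ∧ S = {y | P y ∧ R x y}} =
      (fun v => {y | P y ∧ q y = v}) '' {v | ∃ x, P x ∧ q x = v} := by
    have h2 : ∀ x, P x → {y | P y ∧ q y = q x} = {y | P y ∧ R x y} := by
      intro x hx
      ext y
      change (P y ∧ q y = q x) ↔ (P y ∧ R x y)
      refine and_congr_right fun hy => ?_
      rw [← h x y hx hy]
      exact eq_comm
    ext S
    constructor
    · rintro ⟨x, hx, rfl⟩
      exact ⟨q x, ⟨x, hx, rfl⟩, h2 x hx⟩
    · rintro ⟨v, ⟨x, hx, rfl⟩, rfl⟩
      exact ⟨x, hx, h2 x hx⟩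
  rw [h1]
  refine Set.InjOn.ncard_image ?_
  rintro v ⟨x, hx, rfl⟩ w ⟨y, hy, rfl⟩ hvw
  have h2 : x ∈ {z | P z ∧ q z = q x} := ⟨hx, rfl⟩
  rw [show {z | P z ∧ q z = q x} = {z | P z ∧ q z = q y} from hvw] at h2
  exact h2.2

end Pool.Agent.Q49.EF
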